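import Pool.Agent.Y45.MON.StmG
import Pool.Agent.TH54.BU.WindF

/-!
# Project MON, job G1: windows of a broken line along lines of one type
-/

set_option autoImplicit false

namespace Pool.Agent.Y274.MON

open Pool.Agent.TH54.BU Pool.Agent.Y45.MON

variable {G : Type} [Group G] {H : GH G} {c θ T : ℕ} {L : LS H c θ T} {i : L.ι} {cs : ℕ → G}
  {f : ℕ → ℤ} {v : ℕ → G} {P : ℕ}

/-- the next line seen from the line number `k` -/
theorem nxt (hB : Br L i cs f v) (hP : ∀ k, PC L i P (cs k)) (k : ℕ) (t : ℤ) :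
    (L.s i (v k) (v k) (v (k + 1) * L.x i ^ t)).natAbs ≤ P := by
  have h1 := (hP k (f k + t)).1
  rw [← L.wf_s_mul i (v k) 1 1, mul_one] at h1
  have h2 : v k * (cs k * L.x i ^ (f k + t)) = v (k + 1) * L.x i ^ t := by
    rw [hB.vs, zpow_add]
    simp only [mul_assoc]
  rw [h2, Int.abs_eq_natAbs] at h1
  exact_mod_cast h1

theorem base_eq (hB : Br L i cs f v) (k : ℕ) (p q : G) :
    L.s i (v (k + 1)) p q = L.s i (v k * cs k) p q := by
  rw [hB.vs, L.wf_s_base]

/-- the previous line seen from the line number `k + 1` -/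
theorem prv (hB : Br L i cs f v) (hP : ∀ k, PC L i P (cs k)) (k : ℕ) (t : ℤ) :
    (L.s i (v (k + 1)) (v k * cs k) (v k * L.x i ^ t)).natAbs ≤ P := by
  have h1 := (hP k t).2
  rw [← L.wf_s_mul i (v k * cs k) 1 1, mul_one] at h1
  have h2 : v k * cs k * ((cs k)⁻¹ * L.x i ^ t) = v k * L.x i ^ t := by group
  rw [h2, Int.abs_eq_natAbs, ← base_eq hB] at h1
  exact_mod_cast h1

/-- the displacement along the line number `k + 1` -/
theorem gap (hB : Br L i cs f v) (k : ℕ) :
    L.s i (v (k + 1)) (v k * cs k) (v (k + 1)) = f k := by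
  rw [base_eq hB, hB.vs]
  have h := L.wf_s_rot i (v k * cs k) (v k * cs k) (f k)
  rwa [inv_mul_cancel_right] at h

/-- consecutive lines are distinct -/
theorem dist (hB : Br L i cs f v) (k : ℕ) : (v k)⁻¹ * v (k + 1) ∉ Subgroup.zpowers (L.x i) := by
  intro h
  apply hB.nc k
  have h1 : (v k)⁻¹ * v (k + 1) = cs k * L.x i ^ f k := by
    rw [hB.vs]
    group
  rw [h1] at h
  exact (Subgroup.mul_mem_cancel_right _ (Subgroup.zpow_mem_zpowers _ _)).1 h

theorem dist' (hB : Br L i cs f v) (k : ℕ) : (v (k + 1))⁻¹ * v k ∉ Subgroup.zpowers (L.x i) := by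
  intro h
  apply dist hB k
  have h1 := Subgroup.inv_mem _ h
  rwa [mul_inv_rev, inv_inv] at h1

theorem fwd (hB : Br L i cs f v) (hP : ∀ k, PC L i P (cs k))
    (hf : ∀ k, 4 * P + 8 * L.thr + 8 < (f k).natAbs) (d : ℕ) :
    ∀ (k : ℕ) (t : ℤ), (L.s i (v k) (v k) (v (k + 1 + d) * L.x i ^ t)).natAbs ≤ P + L.thr := by
  induction d with
  | zero =>
    intro k t
    have := nxt hB hP k t
    rw [add_zero]
    omega
  | succ d ih =>
    intro k t
    have e : k + 1 + (d + 1) = (k + 1) + 1 + d := by ring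
    rw [e]
    have h1 := ih (k + 1) t
    set z : G := v (k + 1 + 1 + d) * L.x i ^ t with hz
    rcases L.wf_beh (i := i) (j := i) (u := v (k + 1)) (w := v k) (fun _ => dist' hB k) z with h | h
    · exfalso
      have h2 := h 0
      have h3 := prv hB hP k 0
      have h4 := gap hB k
      have a1 := L.wf_s_add i (v (k + 1)) (v k * cs k) (v (k + 1)) z
      have a2 := L.wf_s_add i (v (k + 1)) (v k * cs k) z (v k * L.x i ^ (0 : ℤ))
      have a3 := hf k
      omega
    · have h2 := h 0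
      have h3 := nxt hB hP k 0
      have a1 := L.wf_s_add i (v k) (v k) z (v (k + 1) * L.x i ^ (0 : ℤ))
      omega

theorem bwd (hB : Br L i cs f v) (hP : ∀ k, PC L i P (cs k))
    (hf : ∀ k, 4 * P + 8 * L.thr + 8 < (f k).natAbs) (l : ℕ) (t : ℤ) (d : ℕ) :
    (L.s i (v (l + d + 1)) (v l * L.x i ^ t) (v (l + d) * cs (l + d))).natAbs ≤ P + L.thr := by
  induction d with
  | zero =>
    have h1 := prv hB hP l t
    have h2 := L.wf_s_symm i (v (l + 1)) (v l * cs l) (v l * L.x i ^ t)
    rw [add_zero]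
    omega
  | succ d ih =>
    set k := l + d with hk
    have e : l + (d + 1) = k + 1 := by omega
    rw [e]
    set z : G := v l * L.x i ^ t with hz
    rcases L.wf_beh (i := i) (j := i) (u := v (k + 1)) (w := v (k + 1 + 1))
        (fun _ => dist hB (k + 1)) z with h | h
    · exfalso
      have h2 := h 0
      have h3 := nxt hB hP (k + 1) 0
      have h4 := gap hB k
      have a1 := L.wf_s_add i (v (k + 1)) z (v k * cs k) (v (k + 1))
      have a2 := L.wf_s_add i (v (k + 1)) z (v (k + 1)) (v (k + 1 + 1) * L.x i ^ (0 : ℤ))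
      have a3 := hf k
      omega
    · have h2 := h 0
      have h3 := prv hB hP (k + 1) 0
      have a1 := L.wf_s_add i (v (k + 1 + 1)) z (v (k + 1) * cs (k + 1))
        (v (k + 1) * L.x i ^ (0 : ℤ))
      omega

/-- **Job G1.** -/
theorem gen : GenStmt := by
  intro G _ H c θ T L i cs f v P hB hP hf0
  have hf : ∀ k, 4 * P + 8 * L.thr + 8 < (f k).natAbs := by
    intro k
    have h := hf0 k
    rw [Int.abs_eq_natAbs] at h
    exact_mod_cast h
  have C1 : ∀ (k l : ℕ) (t : ℤ), k < l →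
      (L.s i (v k) (v k) (v l * L.x i ^ t)).natAbs ≤ P + L.thr := by
    intro k l t hkl
    obtain ⟨d, rfl⟩ := Nat.exists_eq_add_of_lt hkl
    have e : k + d + 1 = k + 1 + d := by ring
    rw [e]
    exact fwd hB hP hf d k t
  have C2 : ∀ (k l : ℕ) (t : ℤ), l ≤ k →
      (L.s i (v (k + 1)) (v l * L.x i ^ t) (v k * cs k)).natAbs ≤ P + L.thr := by
    intro k l t hlk
    obtain ⟨d, rfl⟩ := Nat.exists_eq_add_of_le hlk
    exact bwd hB hP hf l t d
  have C3 : ∀ k : ℕ, (L.s i (v (k + 1)) (v 0) (v k * cs k)).natAbs ≤ P + L.thr := by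
    intro k
    have h := C2 k 0 0 (Nat.zero_le k)
    rwa [zpow_zero, mul_one] at h
  have C4 : ∀ k m : ℕ, k + 1 ≤ m →
      (L.s i (v (k + 1)) (v (k + 1)) (v m)).natAbs ≤ P + L.thr := by
    intro k m hkm
    rcases Nat.eq_or_lt_of_le hkm with h | h
    · rw [← h, L.wf_s_self]
      simp
    · have h1 := C1 (k + 1) m 0 h
      rwa [zpow_zero, mul_one] at h1
  have C5 : ∀ k m : ℕ, k + 1 ≤ m →
      (L.s i (v (k + 1)) (v 0) (v m) - f k).natAbs ≤ 2 * (P + L.thr) := by
    intro k m hkm
    have h1 := C3 k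
    have h2 := C4 k m hkm
    have h3 := gap hB k
    have a1 := L.wf_s_add i (v (k + 1)) (v 0) (v k * cs k) (v (k + 1))
    have a2 := L.wf_s_add i (v (k + 1)) (v 0) (v (k + 1)) (v m)
    omega
  have cast : ∀ (a : ℤ) (b : ℕ), a.natAbs ≤ b → |a| ≤ (b : ℤ) := by
    intro a b h
    rw [Int.abs_eq_natAbs]
    exact_mod_cast h
  refine ⟨fun k l t hkl => ?_, fun k l t hlk => ?_, fun k => ?_, fun k m hkm => ?_,
    fun k m hkm => ?_, fun k l hkl hmem => ?_, fun j w m hne => ?_⟩
  · exact_mod_cast cast _ _ (C1 (k + 1) (l + 1) t (by omega))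
  · exact_mod_cast cast _ _ (C2 k (l + 1) t (by omega))
  · exact_mod_cast cast _ _ (C3 k)
  · exact_mod_cast cast _ _ (C4 k m hkm)
  · exact_mod_cast cast _ _ (C5 k m hkm)
  · obtain ⟨t, ht⟩ := hmem
    have ht' : L.x i ^ t = (v (k + 1))⁻¹ * v (l + 1) := ht
    have e1 : v (l + 1) = v (k + 1) * L.x i ^ t := by
      rw [ht']
      group
    have h1 := C1 (k + 1) (l + 1) 0 (by omega)
    rw [zpow_zero, mul_one] at h1
    have h2 := C2 l (k + 1) 0 (by omega)
    rw [zpow_zero, mul_one] at h2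
    have h3 := gap hB l
    have e2 : ∀ p q : G, L.s i (v (l + 1)) p q = L.s i (v (k + 1)) p q := by
      intro p q
      rw [e1, L.wf_s_base]
    rw [e2] at h2 h3
    have a1 := L.wf_s_add i (v (k + 1)) (v (k + 1)) (v l * cs l) (v (l + 1))
    have a3 := hf l
    omega
  · classical
    have hab : ∀ k < m, (∀ r : ℤ, (L.s j w (v 0) (v (k + 1) * L.x i ^ r)).natAbs ≤ L.thr) ∨
        (∀ r : ℤ, (L.s j w (v m) (v (k + 1) * L.x i ^ r)).natAbs ≤ L.thr) := by
      intro k hk
      have hd : i = j → (v (k + 1))⁻¹ * w ∉ Subgroup.zpowers (L.x i) := fun hij hmem =>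
        hne k hk ⟨hij.symm, hmem⟩
      rcases L.wf_beh (i := i) (j := j) (u := v (k + 1)) (w := w) hd (v 0) with h | h
      · rcases L.wf_beh (i := i) (j := j) (u := v (k + 1)) (w := w) hd (v m) with h' | h'
        · exfalso
          have h1 := h 0
          have h2 := h' 0
          have h3 := C5 k m (by omega)
          have a1 := L.wf_s_add i (v (k + 1)) (v 0) (v m) (w * L.x j ^ (0 : ℤ))
          have a3 := hf k
          omega
        · exact Or.inr h'
      · exact Or.inl h
    have hcs : ∀ q : ℕ, v (q + 1) * L.x i ^ (-f q) = v q * cs q := by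
      intro q
      rw [hB.vs]
      group
    rcases Nat.eq_zero_or_pos m with h0 | h0
    · left
      rw [h0, L.wf_s_self]
      simp
    by_cases hb : ∃ k, k < m ∧ ∀ r : ℤ, (L.s j w (v m) (v (k + 1) * L.x i ^ r)).natAbs ≤ L.thr
    · right
      obtain ⟨h1, h2⟩ := Nat.find_spec hb
      have h3 : ∀ k < Nat.find hb, ¬ (k < m ∧
          ∀ r : ℤ, (L.s j w (v m) (v (k + 1) * L.x i ^ r)).natAbs ≤ L.thr) :=
        fun k hk => Nat.find_min hb hk
      generalize Nat.find hb = k at h1 h2 h3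
      have h4 := h2 (-f k)
      rw [hcs k] at h4
      refine ⟨k, h1, ?_⟩
      have key : (L.s j w (v 0) (v m) - L.s j w (v k) (v k * cs k)).natAbs ≤ 2 * L.thr := by
        rcases Nat.eq_zero_or_pos k with hk | hk
        · subst hk
          have a1 := L.wf_s_add j w (v 0) (v m) (v 0 * cs 0)
          omega
        · obtain ⟨q, rfl⟩ : ∃ q, k = q + 1 := ⟨k - 1, by omega⟩
          have h5 := (hab q (by omega)).resolve_right fun h => h3 q (by omega) ⟨by omega, h⟩
          have h6 := h5 0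
          rw [zpow_zero, mul_one] at h6
          have a1 := L.wf_s_add j w (v 0) (v m) (v (q + 1) * cs (q + 1))
          have a2 := L.wf_s_add j w (v 0) (v (q + 1)) (v (q + 1) * cs (q + 1))
          omega
      exact_mod_cast cast _ _ key
    · left
      push Not at hb
      obtain ⟨r, hr⟩ := hb (m - 1) (by omega)
      have h5 := (hab (m - 1) (by omega)).resolve_right fun h => by
        have := h r
        omega
      have h6 := h5 0
      rw [zpow_zero, mul_one, Nat.sub_add_cancel h0] at h6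
      have h7 : (L.s j w (v 0) (v m)).natAbs ≤ 2 * L.thr := by omega
      exact_mod_cast cast _ _ h7

end Pool.Agent.Y274.MON
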